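import Mathlib

/-!
# Counting fixed vectors of homogeneous polynomial maps

If the forms `g₁, …, g_n` of degree `e ≥ 2` generate an ideal containing the `D`-th power of the
irrelevant ideal, then the map `g` has at most `D ^ n` fixed vectors.
-/

set_option autoImplicit false

open Finset MvPolynomial

namespace Pool.Agent.H927R2.Osc

attribute [local instance] MvPolynomial.gradedAlgebra

lemma hc_mul {σ L : Type*} [Field L] (a b : MvPolynomial σ L) {e k : ℕ}
    (hb : b.IsHomogeneous e) (h : e ≤ k) :
    homogeneousComponent k (a * b) = homogeneousComponent (k - e) a * b := by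
  classical
  have h1 := DirectSum.coe_decompose_mul_of_right_mem_of_le
    (𝒜 := homogeneousSubmodule σ L) (a := a) (b := b) (n := k) (i := e)
    ((mem_homogeneousSubmodule _ _).mpr hb) h
  have h2 : ∀ (φ : MvPolynomial σ L) (i : ℕ),
      ((DirectSum.decompose (homogeneousSubmodule σ L) φ) i : MvPolynomial σ L)
        = homogeneousComponent i φ := decomposition.decompose'_apply
  rw [h2, h2] at h1
  exact h1

lemma hc_mul_zero {σ L : Type*} [Field L] (a b : MvPolynomial σ L) {e k : ℕ}
    (hb : b.IsHomogeneous e) (h : ¬ e ≤ k) :
    homogeneousComponent k (a * b) = 0 := by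
  classical
  have h1 := DirectSum.coe_decompose_mul_of_right_mem_of_not_le
    (𝒜 := homogeneousSubmodule σ L) (a := a) (b := b) (n := k) (i := e)
    ((mem_homogeneousSubmodule _ _).mpr hb) h
  have h2 : ∀ (φ : MvPolynomial σ L) (i : ℕ),
      ((DirectSum.decompose (homogeneousSubmodule σ L) φ) i : MvPolynomial σ L)
        = homogeneousComponent i φ := decomposition.decompose'_apply
  rw [h2] at h1
  exact h1

variable {L : Type} [Field L] {n e D : ℕ}

/-- homogeneous membership -/
lemma hom_rep {g : Fin n → MvPolynomial (Fin n) L} (hg : ∀ i, (g i).IsHomogeneous e)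
    {p : MvPolynomial (Fin n) L} {k : ℕ} (hp : p.IsHomogeneous k) (hp0 : p ≠ 0)
    (hmem : p ∈ Ideal.span (Set.range g)) :
    e ≤ k ∧ ∃ h : Fin n → MvPolynomial (Fin n) L,
      (∀ i, (h i).IsHomogeneous (k - e)) ∧ p = ∑ i, h i * g i := by
  classical
  obtain ⟨c, hc⟩ := Ideal.mem_span_range_iff_exists_fun.mp hmem
  have h1 : homogeneousComponent k p = p := homogeneousComponent_eq_self hp
  have h2 : p = ∑ i, homogeneousComponent k (c i * g i) := by
    rw [← map_sum, hc, h1]
  by_cases he : e ≤ k
  · refine ⟨he, fun i => homogeneousComponent (k - e) (c i),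
      fun i => homogeneousComponent_isHomogeneous _ _, ?_⟩
    conv_lhs => rw [h2]
    exact Finset.sum_congr rfl fun i _ => hc_mul _ _ (hg i) he
  · exfalso
    apply hp0
    rw [h2]
    exact Finset.sum_eq_zero fun i _ => hc_mul_zero _ _ (hg i) he

/-- the evaluation of bounded monomials on a finite set -/
def bmon (D : ℕ) (S : Finset (Fin n → L)) (a : Fin n → Fin D) : (S → L) :=
  fun v => ∏ i, (v : Fin n → L) i ^ (a i : ℕ)

lemma monomial_mem {g : Fin n → MvPolynomial (Fin n) L} (he : 2 ≤ e)
    (hg : ∀ i, (g i).IsHomogeneous e)
    (hI : Ideal.span (Set.range (X : Fin n → MvPolynomial (Fin n) L)) ^ D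
      ≤ Ideal.span (Set.range g))
    (S : Finset (Fin n → L)) (hS : ∀ v ∈ S, ∀ i, eval v (g i) = v i) :
    ∀ (k : ℕ) (p : MvPolynomial (Fin n) L), p.totalDegree ≤ k →
      (fun v : S => eval (v : Fin n → L) p) ∈ Submodule.span L (Set.range (bmon D S)) := by
  classical
  intro k
  induction k using Nat.strong_induction_on with
  | _ k ih =>
    -- monomials first
    have hmon : ∀ α : Fin n →₀ ℕ, α.degree ≤ k →
        (fun v : S => eval (v : Fin n → L) (monomial α (1 : L)))
          ∈ Submodule.span L (Set.range (bmon D S)) := by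
      intro α hα
      by_cases hlt : α.degree < D
      · have hai : ∀ i, α i < D := fun i => lt_of_le_of_lt (Finsupp.le_degree i α) hlt
        apply Submodule.subset_span
        refine ⟨fun i => ⟨α i, hai i⟩, ?_⟩
        funext v
        unfold bmon
        rw [eval_monomial, one_mul, Finsupp.prod_fintype _ _ (fun i => pow_zero _)]
      · have hDle : D ≤ α.degree := not_lt.mp hlt
        have hmemI : (monomial α (1 : L)) ∈ Ideal.span (Set.range g) := by
          apply hI
          have h1 : (monomial α (1 : L)) ∈
              Ideal.span (Set.range (X : Fin n → MvPolynomial (Fin n) L)) ^ α.degree := by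
            rw [monomial_eq, C_1, one_mul, Finsupp.degree_eq_sum, ← Finset.prod_pow_eq_pow_sum,
              Finsupp.prod_fintype _ _ (fun i => pow_zero _)]
            apply Ideal.prod_mem_prod
            intro i _
            exact Ideal.pow_mem_pow (Ideal.subset_span (Set.mem_range_self i)) _
          exact Ideal.pow_le_pow_right hDle h1
        have hhom : (monomial α (1 : L)).IsHomogeneous α.degree :=
          isHomogeneous_monomial _ rfl
        have hne : (monomial α (1 : L)) ≠ 0 := by
          intro h0
          exact one_ne_zero ((monomial_eq_zero).mp h0)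
        obtain ⟨hek, h, hh, hsum⟩ := hom_rep hg hhom hne hmemI
        have hev : (fun v : S => eval (v : Fin n → L) (monomial α (1 : L)))
            = fun v : S => eval (v : Fin n → L) (∑ i, h i * X i) := by
          funext v
          rw [hsum, map_sum, map_sum]
          refine Finset.sum_congr rfl fun i _ => ?_
          rw [map_mul, map_mul, hS v v.2 i, eval_X]
        rw [hev]
        refine ih (α.degree - 1) (by omega) _ ?_
        refine totalDegree_finsetSum_le fun i _ => ?_
        refine (totalDegree_mul _ _).trans ?_
        have h3 : (h i).totalDegree ≤ α.degree - e := (hh i).totalDegree_le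
        have h4 : (X i : MvPolynomial (Fin n) L).totalDegree ≤ 1 := (totalDegree_X i).le
        omega
    intro p hp
    have hpe : (fun v : S => eval (v : Fin n → L) p)
        = ∑ α ∈ p.support, p.coeff α • (fun v : S => eval (v : Fin n → L) (monomial α (1 : L))) := by
      funext v
      rw [Finset.sum_apply]
      conv_lhs => rw [p.as_sum]
      rw [map_sum]
      refine Finset.sum_congr rfl fun α _ => ?_
      rw [Pi.smul_apply, smul_eq_mul, eval_monomial, eval_monomial, one_mul]
    rw [hpe]
    refine Submodule.sum_mem _ fun α hα => Submodule.smul_mem _ _ (hmon α ?_)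
    refine le_trans ?_ hp
    have := le_totalDegree hα
    rw [Finsupp.degree_eq_sum]
    rw [Finsupp.sum_fintype _ _ (fun i => rfl)] at this
    exact this

/-- every function on a finite set of points is a polynomial function -/
lemma exists_interp (S : Finset (Fin n → L)) (v : S) :
    ∃ p : MvPolynomial (Fin n) L, eval (v : Fin n → L) p = 1 ∧
      ∀ u : S, u ≠ v → eval (u : Fin n → L) p = 0 := by
  classical
  have hsep : ∀ u : S, ∃ q : MvPolynomial (Fin n) L,
      eval (v : Fin n → L) q = 1 ∧ (u ≠ v → eval (u : Fin n → L) q = 0) := by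
    intro u
    by_cases huv : u = v
    · exact ⟨1, by simp, fun h => absurd huv h⟩
    · have hne : (u : Fin n → L) ≠ v := fun h => huv (Subtype.ext h)
      obtain ⟨i, hi⟩ := Function.ne_iff.mp hne
      refine ⟨C (((v : Fin n → L) i - (u : Fin n → L) i)⁻¹) * (X i - C ((u : Fin n → L) i)), ?_, ?_⟩
      · rw [map_mul, map_sub, eval_C, eval_X, eval_C,
          inv_mul_cancel₀ (sub_ne_zero.mpr (Ne.symm hi))]
      · intro _
        rw [map_mul, map_sub, eval_X, eval_C, eval_C, sub_self, mul_zero]
  choose q hq hq' using hsep
  refine ⟨∏ u : S, q u, ?_, fun u h => ?_⟩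
  · rw [map_prod]
    exact Finset.prod_eq_one fun w _ => hq w
  · rw [map_prod]
    exact Finset.prod_eq_zero (Finset.mem_univ u) (hq' u h)

/-- **Counting fixed vectors.** -/
theorem card_fixed_le {g : Fin n → MvPolynomial (Fin n) L} (he : 2 ≤ e)
    (hg : ∀ i, (g i).IsHomogeneous e)
    (hI : Ideal.span (Set.range (X : Fin n → MvPolynomial (Fin n) L)) ^ D
      ≤ Ideal.span (Set.range g))
    (S : Finset (Fin n → L)) (hS : ∀ v ∈ S, ∀ i, eval v (g i) = v i) :
    S.card ≤ D ^ n := by
  classical
  have htop : Submodule.span L (Set.range (bmon D S)) = ⊤ := by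
    rw [eq_top_iff]
    intro φ _
    have hφ : φ = ∑ v : S, φ v • (Pi.single v 1 : S → L) := by
      funext u
      rw [Finset.sum_apply]
      simp [Pi.single_apply]
    rw [hφ]
    refine Submodule.sum_mem _ fun v _ => Submodule.smul_mem _ _ ?_
    obtain ⟨p, hp⟩ := exists_interp S v
    have : (Pi.single v 1 : S → L) = fun u : S => eval (u : Fin n → L) p := by
      funext u
      by_cases h : u = v
      · subst h
        rw [Pi.single_eq_same, hp.1]
      · rw [Pi.single_eq_of_ne h, hp.2 u h]
    rw [this]
    exact monomial_mem he hg hI S hS p.totalDegree p le_rfl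
  have h1 : Module.finrank L (S → L) = S.card := by
    rw [Module.finrank_fintype_fun_eq_card, Fintype.card_coe]
  have h2 : Module.finrank L (S → L) ≤ Fintype.card (Fin n → Fin D) := by
    have := finrank_range_le_card (R := L) (bmon D S)
    unfold Set.finrank at this
    rw [htop, finrank_top] at this
    exact this
  rw [h1, Fintype.card_fun, Fintype.card_fin, Fintype.card_fin] at h2
  exact h2

end Pool.Agent.H927R2.Osc
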