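import Mathlib

/-!
# Variation diminishing maps of `ℝ^N`

`Alt s k v`: the vector `v` has an alternating chain of `k` nonzero entries whose first sign is the
sign of `s`.  A map `T` is variation diminishing (with sign function `χ`) if an alternating chain
of a difference `T x - T y` is also one of `x - y`, up to the sign `χ k`.  Periodic points of
variation diminishing maps with `χ = 1` are fixed points.
-/

set_option autoImplicit false

open Finset

namespace Pool.Agent.H927R2.Osc

variable {N : ℕ}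

/-- alternating chain of length `k` starting with the sign of `s` -/
def Alt (s : ℝ) (k : ℕ) (v : Fin N → ℝ) : Prop :=
  ∃ f : Fin k → Fin N, StrictMono f ∧ ∀ j : Fin k, 0 < s * (-1) ^ (j : ℕ) * v (f j)

/-- variation diminishing with sign function `χ` -/
def VD (χ : ℕ → ℝ) (T : (Fin N → ℝ) → (Fin N → ℝ)) : Prop :=
  ∀ (x y : Fin N → ℝ) (s : ℝ) (k : ℕ), Alt s k (T x - T y) → Alt (χ k * s) k (x - y)

lemma VD.comp {χ χ' : ℕ → ℝ} {T T' : (Fin N → ℝ) → (Fin N → ℝ)} (h : VD χ T) (h' : VD χ' T') :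
    VD (fun k => χ' k * χ k) (T ∘ T') := by
  intro x y s k hA
  have h1 := h' x y _ _ (h (T' x) (T' y) s k hA)
  rw [mul_assoc]
  exact h1

/-- the first nonzero entry has the sign of `s` -/
def FS (s : ℝ) (v : Fin N → ℝ) : Prop := ∃ i, 0 < s * v i ∧ ∀ j, j < i → v j = 0

lemma FS_or {v : Fin N → ℝ} (hv : v ≠ 0) : FS 1 v ∨ FS (-1) v := by
  classical
  have hne : (univ.filter (fun i => v i ≠ 0)).Nonempty := by
    obtain ⟨i, hi⟩ := Function.ne_iff.mp hv
    exact ⟨i, by simpa using hi⟩
  set i := (univ.filter (fun i => v i ≠ 0)).min' hne with hi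
  have hvi : v i ≠ 0 := by
    have := (univ.filter (fun i => v i ≠ 0)).min'_mem hne
    exact (mem_filter.mp this).2
  have hlt : ∀ j, j < i → v j = 0 := by
    intro j hj
    by_contra hcon
    have := (univ.filter (fun i => v i ≠ 0)).min'_le j (by simpa using hcon)
    exact absurd hj (not_lt.mpr this)
  rcases lt_or_gt_of_ne hvi with h | h
  · right; exact ⟨i, by linarith, hlt⟩
  · left; exact ⟨i, by linarith, hlt⟩

lemma not_FS_zero {s : ℝ} : ¬ FS s (0 : Fin N → ℝ) := by
  rintro ⟨i, hi, _⟩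
  simp at hi

lemma FS_add {s : ℝ} {u w : Fin N → ℝ} (hu : FS s u) (hw : FS s w) : FS s (u + w) := by
  obtain ⟨i, hi, hi'⟩ := hu
  obtain ⟨j, hj, hj'⟩ := hw
  rcases lt_trichotomy i j with h | h | h
  · refine ⟨i, ?_, fun a ha => ?_⟩
    · rw [Pi.add_apply, hj' i h, add_zero]; exact hi
    · rw [Pi.add_apply, hi' a ha, hj' a (ha.trans h), add_zero]
  · subst h
    refine ⟨i, ?_, fun a ha => ?_⟩
    · rw [Pi.add_apply, mul_add]; linarith
    · rw [Pi.add_apply, hi' a ha, hj' a ha, add_zero]
  · refine ⟨j, ?_, fun a ha => ?_⟩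
    · rw [Pi.add_apply, hi' j h, zero_add]; exact hj
    · rw [Pi.add_apply, hi' a (ha.trans h), hj' a ha, add_zero]

lemma alt_truncate {s : ℝ} {k : ℕ} {v : Fin N → ℝ} (h : Alt s (k + 1) v) : Alt s k v := by
  obtain ⟨f, hf, hs⟩ := h
  exact ⟨f ∘ Fin.castSucc, hf.comp Fin.strictMono_castSucc, fun j => by simpa using hs j.castSucc⟩

lemma alt_prepend {s : ℝ} {k : ℕ} {v : Fin N → ℝ} (hv : FS s v) (h : Alt (-s) k v) :
    Alt s (k + 1) v := by
  obtain ⟨i, hi, hi'⟩ := hv
  obtain ⟨f, hf, hs⟩ := h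
  have hlt : ∀ j, i < f j := by
    intro j
    have hj0 : v (f j) ≠ 0 := by
      intro h0
      have := hs j
      rw [h0, mul_zero] at this
      exact lt_irrefl _ this
    have hge : i ≤ f j := by
      by_contra hcon
      exact hj0 (hi' _ (not_le.mp hcon))
    rcases hge.lt_or_eq with h1 | h1
    · exact h1
    · exfalso
      -- `f j = i`, so `j = 0` and signs clash
      have hj : (j : ℕ) = 0 := by
        by_contra hne
        have h0 : (⟨0, by omega⟩ : Fin k) < j := by
          rw [Fin.lt_def]; simp only; omega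
        have h2 := hf h0
        have h3 : v (f ⟨0, by omega⟩) = 0 := hi' _ (by rw [h1]; exact h2)
        have h4 := hs ⟨0, by omega⟩
        rw [h3, mul_zero] at h4
        exact lt_irrefl _ h4
      have h2 := hs j
      rw [hj, pow_zero, mul_one, ← h1] at h2
      linarith
  refine ⟨Fin.cons i f, ?_, ?_⟩
  · intro a b hab
    induction a using Fin.cases with
    | zero =>
      induction b using Fin.cases with
      | zero => exact absurd hab (lt_irrefl _)
      | succ b => simpa using hlt b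
    | succ a =>
      induction b using Fin.cases with
      | zero => exact absurd hab (by simp)
      | succ b => simpa using hf (Fin.succ_lt_succ_iff.mp hab)
  · intro j
    induction j using Fin.cases with
    | zero => simpa using hi
    | succ j =>
      have := hs j
      simp only [Fin.val_succ, Fin.cons_succ, pow_succ]
      linarith

lemma alt_zero {s : ℝ} {v : Fin N → ℝ} : Alt s 0 v :=
  ⟨fun j => j.elim0, fun j => j.elim0, fun j => j.elim0⟩

lemma not_alt_big {s : ℝ} {v : Fin N → ℝ} : ¬ Alt s (N + 1) v := by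
  rintro ⟨f, hf, _⟩
  have := Fintype.card_le_of_injective f hf.injective
  simp at this

lemma exists_alt_of_FS {s : ℝ} {v : Fin N → ℝ} (h : FS s v) :
    ∃ k, Alt s k v ∧ ¬ Alt (-s) k v := by
  classical
  -- a maximal `k`
  have hex : ∃ k, ¬ Alt s (k + 1) v := ⟨N, not_alt_big⟩
  have hk := Nat.find_spec hex
  set k := Nat.find hex with hkdef
  have hk' : Alt s k v := by
    rcases Nat.eq_zero_or_pos k with h0 | h0
    · rw [h0]; exact alt_zero
    · obtain ⟨k', hk'⟩ : ∃ k', k = k' + 1 := ⟨k - 1, by omega⟩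
      have := Nat.find_min hex (m := k') (by omega)
      rw [not_not] at this
      rw [hk']; exact this
  refine ⟨k, hk', fun hcon => hk (alt_prepend h hcon)⟩

lemma alt_of_FS_neg {s : ℝ} {k : ℕ} {v : Fin N → ℝ} (h : FS (-s) v) (hA : Alt s k v) :
    Alt (-s) k v := by
  apply alt_truncate
  apply alt_prepend h
  rwa [neg_neg]

lemma FS_of_same {s : ℝ} (hs : s = 1 ∨ s = -1) {v v' : Fin N → ℝ} (hv : FS s v) (hv' : v' ≠ 0)
    (h : ∀ s k, Alt s k v ↔ Alt s k v') : FS s v' := by
  by_contra hcon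
  have h2 : FS (-s) v' := by
    rcases FS_or hv' with h3 | h3 <;> rcases hs with rfl | rfl
    · exact absurd h3 hcon
    · rwa [neg_neg]
    · exact h3
    · exact absurd h3 hcon
  obtain ⟨k, hk, hk'⟩ := exists_alt_of_FS hv
  exact hk' ((h _ _).mpr (alt_of_FS_neg h2 ((h _ _).mp hk)))

/-- **Periodic points of variation diminishing maps are fixed.** -/
theorem fixed_of_periodic {T : (Fin N → ℝ) → (Fin N → ℝ)} (hT : VD (fun _ => 1) T)
    (w : Fin N → ℝ) (l : ℕ) (hl : 1 ≤ l) (h : T^[l] w = w) : T w = w := by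
  by_contra hne
  have hper : ∀ m, T^[m * l] w = w := by
    intro m
    induction m with
    | zero => simp
    | succ m ih => rw [Nat.succ_mul, Function.iterate_add_apply, h, ih]
  set z : ℕ → (Fin N → ℝ) := fun n => T^[n + 1] w - T^[n] w with hz
  have hstep : ∀ n s k, Alt s k (z (n + 1)) → Alt s k (z n) := by
    intro n s k hA
    have h1 : z (n + 1) = T (T^[n + 1] w) - T (T^[n] w) := by
      rw [hz]
      simp only [Function.iterate_succ_apply']
    rw [h1] at hA
    have h2 := hT _ _ _ _ hA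
    rw [one_mul] at h2
    exact h2
  have hdown : ∀ m n s k, Alt s k (z (n + m)) → Alt s k (z n) := by
    intro m
    induction m with
    | zero => intro n s k hA; simpa using hA
    | succ m ih => intro n s k hA; exact ih n s k (hstep _ _ _ hA)
  have hz0 : ∀ m, z (m * l) = z 0 := by
    intro m
    simp only [hz]
    rw [Function.iterate_succ_apply', hper]
    simp
  have hsame : ∀ n s k, Alt s k (z 0) ↔ Alt s k (z n) := by
    intro n s k
    constructor
    · intro hA
      rw [← hz0 n] at hA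
      have hle : n ≤ n * l := Nat.le_mul_of_pos_right n hl
      obtain ⟨m, hm⟩ := Nat.exists_eq_add_of_le hle
      rw [hm] at hA
      exact hdown m n s k hA
    · intro hA
      have := hdown n 0 s k
      rw [zero_add] at this
      exact this hA
  have hzne : ∀ n, z n ≠ 0 := by
    intro n hzn
    have h1 : T^[n + 1] w = T^[n] w := sub_eq_zero.mp hzn
    have h2 : ∀ m, T^[n + m + 1] w = T^[n + m] w := by
      intro m
      induction m with
      | zero => simpa using h1
      | succ m ih =>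
        have e1 : T^[n + (m + 1) + 1] w = T (T^[n + m + 1] w) :=
          Function.iterate_succ_apply' T (n + m + 1) w
        have e2 : T^[n + (m + 1)] w = T (T^[n + m] w) :=
          Function.iterate_succ_apply' T (n + m) w
        rw [e1, e2, ih]
    have hle : n ≤ n * l := Nat.le_mul_of_pos_right n hl
    obtain ⟨m, hm⟩ := Nat.exists_eq_add_of_le hle
    have h3 := h2 m
    rw [← hm, Function.iterate_succ_apply', hper] at h3
    exact hne h3
  obtain ⟨s, hs, hs0⟩ : ∃ s : ℝ, (s = 1 ∨ s = -1) ∧ FS s (z 0) := by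
    rcases FS_or (hzne 0) with h1 | h1
    · exact ⟨1, Or.inl rfl, h1⟩
    · exact ⟨-1, Or.inr rfl, h1⟩
  have hall : ∀ n, FS s (z n) := fun n => FS_of_same hs hs0 (hzne n) (hsame n)
  have hsum : ∀ n, FS s (T^[n + 1] w - w) := by
    intro n
    induction n with
    | zero => simpa [hz] using hall 0
    | succ n ih =>
      have e : T^[n + 1 + 1] w - w = z (n + 1) + (T^[n + 1] w - w) := by
        rw [hz]; simp
      rw [e]
      exact FS_add (hall _) ih
  have := hsum (l - 1)
  rw [Nat.sub_add_cancel hl, h, sub_self] at this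
  exact not_FS_zero this

/-! ### Elementary variation diminishing maps -/

lemma mono_sign {P : ℝ → ℝ} (hP : Monotone P) {a b c : ℝ} (h : 0 < c * (P a - P b)) :
    0 < c * (a - b) := by
  rcases lt_trichotomy c 0 with hc | hc | hc
  · have h1 : P a < P b := by nlinarith
    have h2 : a < b := lt_of_not_ge fun h3 => absurd (hP h3) (not_le.mpr h1)
    nlinarith
  · rw [hc, zero_mul] at h
    exact absurd h (lt_irrefl _)
  · have h1 : P b < P a := by nlinarith
    have h2 : b < a := lt_of_not_ge fun h3 => absurd (hP h3) (not_le.mpr h1)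
    nlinarith

/-- monotone selection for chains: `g` is strictly increasing if it is weakly increasing and signs
alternate -/
lemma strictMono_of_alt {k : ℕ} {g : Fin k → Fin N} {s : ℝ} {v : Fin N → ℝ}
    (hg : ∀ a b : Fin k, a < b → g a ≤ g b)
    (hs : ∀ j : Fin k, 0 < s * (-1) ^ (j : ℕ) * v (g j)) : StrictMono g := by
  intro a b hab
  rcases (hg a b hab).lt_or_eq with h | h
  · exact h
  · exfalso
    have ha : (a : ℕ) + 1 < k := by
      have := b.2
      have : (a : ℕ) < b := hab
      omega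
    set a' : Fin k := ⟨a + 1, ha⟩ with ha'
    have h1 : g a ≤ g a' := hg a a' (by rw [Fin.lt_def]; simp [ha'])
    have h2 : g a' ≤ g b := by
      rcases (show a' ≤ b by rw [Fin.le_def]; exact hab).lt_or_eq with h3 | h3
      · exact hg _ _ h3
      · rw [h3]
    have h3 : g a' = g a := le_antisymm (h2.trans h.ge) h1
    have h4 := hs a
    have h5 := hs a'
    rw [h3] at h5
    have h6 : (a' : ℕ) = a + 1 := rfl
    rw [h6, pow_succ] at h5
    linarith

lemma alt_of_up {v w : Fin N → ℝ}
    (h : ∀ (i : Fin N) (c : ℝ), 0 < c * w i →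
      0 < c * v i ∨ ∃ j : Fin N, (j : ℕ) = i + 1 ∧ 0 < c * v j) {s : ℝ} {k : ℕ}
    (hA : Alt s k w) : Alt s k v := by
  obtain ⟨f, hf, hs⟩ := hA
  have hex : ∀ j : Fin k, ∃ b : Fin N, ((b : ℕ) = f j ∨ (b : ℕ) = f j + 1) ∧
      0 < s * (-1) ^ (j : ℕ) * v b := by
    intro j
    rcases h _ _ (hs j) with h1 | ⟨b, hb, hb'⟩
    · exact ⟨f j, Or.inl rfl, h1⟩
    · exact ⟨b, Or.inr hb, hb'⟩
  choose g hg hgs using hex
  refine ⟨g, strictMono_of_alt ?_ hgs, hgs⟩
  intro a b hab
  have h1 : (f a : ℕ) < f b := hf hab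
  rw [Fin.le_def]
  rcases hg a with h2 | h2 <;> rcases hg b with h3 | h3 <;> omega

lemma alt_of_down {v w : Fin N → ℝ}
    (h : ∀ (i : Fin N) (c : ℝ), 0 < c * w i →
      0 < c * v i ∨ ∃ j : Fin N, (j : ℕ) + 1 = i ∧ 0 < c * v j) {s : ℝ} {k : ℕ}
    (hA : Alt s k w) : Alt s k v := by
  obtain ⟨f, hf, hs⟩ := hA
  have hex : ∀ j : Fin k, ∃ b : Fin N, ((b : ℕ) = f j ∨ (b : ℕ) + 1 = f j) ∧
      0 < s * (-1) ^ (j : ℕ) * v b := by
    intro j
    rcases h _ _ (hs j) with h1 | ⟨b, hb, hb'⟩
    · exact ⟨f j, Or.inl rfl, h1⟩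
    · exact ⟨b, Or.inr hb, hb'⟩
  choose g hg hgs using hex
  refine ⟨g, strictMono_of_alt ?_ hgs, hgs⟩
  intro a b hab
  have h1 : (f a : ℕ) < f b := hf hab
  rw [Fin.le_def]
  rcases hg a with h2 | h2 <;> rcases hg b with h3 | h3 <;> omega

lemma vd_neg : VD (fun _ => -1) (fun x : Fin N → ℝ => -x) := by
  intro x y s k hA
  obtain ⟨f, hf, hs⟩ := hA
  refine ⟨f, hf, fun j => ?_⟩
  have := hs j
  simp only [Pi.sub_apply, Pi.neg_apply] at this ⊢
  linarith

lemma vd_rev : VD (fun k => (-1) ^ (k + 1)) (fun (x : Fin N → ℝ) i => x i.rev) := by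
  intro x y s k hA
  obtain ⟨f, hf, hs⟩ := hA
  refine ⟨fun j => (f j.rev).rev, ?_, fun j => ?_⟩
  · intro a b hab
    have h1 : b.rev < a.rev := Fin.rev_lt_rev.mpr hab
    exact Fin.rev_lt_rev.mpr (hf h1)
  · have h1 := hs j.rev
    simp only [Pi.sub_apply] at h1 ⊢
    have h2 : ((-1 : ℝ)) ^ (k + 1) * (-1) ^ (j : ℕ) = (-1) ^ ((j.rev : Fin k) : ℕ) := by
      have h3 : ((j.rev : Fin k) : ℕ) = k - (j + 1) := Fin.val_rev j
      have h4 : (k + 1) + j = (k - (j + 1)) + 2 * (j + 1) := by
        have := j.2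
        omega
      rw [← pow_add, h4, h3, pow_add, pow_mul]
      norm_num
    have h5 : (-1 : ℝ) ^ (k + 1) * s * (-1) ^ (j : ℕ) = s * (-1) ^ ((j.rev : Fin k) : ℕ) := by
      rw [← h2]; ring
    rw [h5]
    exact h1

end Pool.Agent.H927R2.Osc
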