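import Mathlib
import Pool.Agent.H927R2.Osc.Real

/-!
# The semigroup of oscillatory morphisms of projective space
-/

set_option autoImplicit false

open Finset MvPolynomial Filter Topology

namespace Pool.Agent.H927R2.Osc

variable {K : Type} [Field K] {N : ℕ}

/-! ### Homogenized one-variable polynomials -/

/-- The homogenization of degree `m` of the polynomial `p` in one variable, in the variables
`X 0` and `X j`: the form `X_0 ^ m * p (X_j / X_0)`. -/
noncomputable def hz (m : ℕ) (p : Polynomial K) (j : Fin (N + 1)) : MvPolynomial (Fin (N + 1)) K :=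
  ∑ k ∈ range (m + 1), C (p.coeff k) * X 0 ^ (m - k) * X j ^ k

/-- its real values -/
noncomputable def hr (P : Polynomial ℝ) (m : ℕ) (t x : ℝ) : ℝ :=
  ∑ k ∈ range (m + 1), P.coeff k * t ^ (m - k) * x ^ k

lemma eval₂_hz (σ : K →+* ℝ) (m : ℕ) (p : Polynomial K) (j : Fin (N + 1)) (v : Fin (N + 1) → ℝ) :
    eval₂ σ v (hz m p j) = hr (p.map σ) m (v 0) (v j) := by
  unfold hz hr
  rw [eval₂_sum]
  refine Finset.sum_congr rfl fun k _ => ?_
  rw [eval₂_mul, eval₂_mul, eval₂_C, eval₂_pow, eval₂_pow, eval₂_X, eval₂_X, Polynomial.coeff_map]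

lemma hz_homogeneous (m : ℕ) (p : Polynomial K) (j : Fin (N + 1)) :
    (hz m p j).IsHomogeneous m := by
  unfold hz
  apply IsHomogeneous.sum
  intro k hk
  have hk' : k ≤ m := Nat.lt_succ_iff.mp (mem_range.mp hk)
  have h1 : (C (p.coeff k) * X 0 ^ (m - k) * X j ^ k : MvPolynomial (Fin (N + 1)) K).IsHomogeneous
      (0 + (m - k) + k) := by
    refine ((isHomogeneous_C _ _).mul ?_).mul ?_
    · have := (isHomogeneous_X K (0 : Fin (N + 1))).pow (m - k)
      rwa [one_mul] at this
    · have := (isHomogeneous_X K j).pow k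
      rwa [one_mul] at this
  have h2 : 0 + (m - k) + k = m := by omega
  rwa [h2] at h1

lemma hz_mod (m : ℕ) (p : Polynomial K) (j : Fin (N + 1)) :
    hz m p j - C (p.coeff m) * X j ^ m ∈
      Ideal.span {(X 0 : MvPolynomial (Fin (N + 1)) K)} := by
  unfold hz
  rw [Finset.sum_range_succ, Nat.sub_self, pow_zero, mul_one, add_sub_cancel_right]
  refine Ideal.sum_mem _ fun k hk => ?_
  have hk' : k < m := mem_range.mp hk
  have h2 : m - k = (m - k - 1) + 1 := by omega
  rw [h2, pow_succ]
  have h3 : C (p.coeff k) * (X 0 ^ (m - k - 1) * X 0) * X j ^ k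
      = (C (p.coeff k) * X 0 ^ (m - k - 1) * X j ^ k) * (X 0 : MvPolynomial (Fin (N + 1)) K) := by
    ring
  rw [h3]
  exact Ideal.mul_mem_left _ _ (Ideal.subset_span rfl)

lemma hr_eq {P : Polynomial ℝ} {m : ℕ} (hP : P.natDegree ≤ m) {t : ℝ} (ht : t ≠ 0) (x : ℝ) :
    hr P m t x = t ^ m * P.eval (x / t) := by
  unfold hr
  rw [P.eval_eq_sum_range' (Nat.lt_succ_of_le hP), Finset.mul_sum]
  refine Finset.sum_congr rfl fun k hk => ?_
  have hk' : k ≤ m := Nat.lt_succ_iff.mp (mem_range.mp hk)
  have h1 : t ^ m = t ^ (m - k) * t ^ k := by rw [← pow_add, Nat.sub_add_cancel hk']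
  rw [h1, div_pow]
  field_simp

lemma hr_mono {P : Polynomial ℝ} {m : ℕ} (hm : Odd m) (hP : P.natDegree ≤ m)
    (hmono : Monotone fun t : ℝ => P.eval t) (t : ℝ) : Monotone (hr P m t) := by
  have hpos : ∀ t : ℝ, 0 < t → Monotone (hr P m t) := by
    intro t ht x y hxy
    rw [hr_eq hP ht.ne', hr_eq hP ht.ne']
    exact mul_le_mul_of_nonneg_left (hmono (div_le_div_of_nonneg_right hxy ht.le)) (pow_pos ht m).le
  rcases lt_trichotomy t 0 with ht | ht | ht
  · intro x y hxy
    rw [hr_eq hP ht.ne, hr_eq hP ht.ne]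
    have h1 : t ^ m < 0 := hm.pow_neg ht
    have h2 : y / t ≤ x / t := div_le_div_of_nonpos_of_le ht.le hxy
    have h3 := hmono h2
    simp only at h3
    nlinarith
  · subst ht
    intro x y hxy
    have hcont : ∀ z, Tendsto (fun n : ℕ => hr P m (1 / ((n : ℝ) + 1)) z) atTop (𝓝 (hr P m 0 z)) := by
      intro z
      have hc : Continuous fun s : ℝ => hr P m s z := by
        unfold hr
        fun_prop
      exact (hc.tendsto 0).comp tendsto_one_div_add_atTop_nhds_zero_nat
    refine le_of_tendsto_of_tendsto' (hcont x) (hcont y) fun n => ?_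
    exact hpos _ (by positivity) hxy
  · exact hpos t ht

lemma hr_strictMono {P : Polynomial ℝ} {m : ℕ} (hm : Odd m) (hP : P.natDegree = m)
    (hmono : Monotone fun t : ℝ => P.eval t) (t : ℝ) : StrictMono (hr P m t) := by
  have h1 := hr_mono hm hP.le hmono t
  apply h1.strictMono_of_injective
  -- injectivity
  have key : ∀ x y : ℝ, x < y → hr P m t x ≠ hr P m t y := by
    intro x y hxy heq
    set Q : Polynomial ℝ := ∑ k ∈ range (m + 1), Polynomial.C (P.coeff k * t ^ (m - k)) *
      Polynomial.X ^ k with hQ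
    have hev : ∀ z, Q.eval z = hr P m t z := by
      intro z
      rw [hQ, Polynomial.eval_finsetSum]
      unfold hr
      refine Finset.sum_congr rfl fun k _ => ?_
      simp
    have hconst : Q = Polynomial.C (hr P m t x) := by
      apply Polynomial.eq_of_infinite_eval_eq
      apply (Set.Icc_infinite hxy).mono
      intro z hz
      simp only [Set.mem_ofPred_eq, Polynomial.eval_C]
      rw [hev]
      apply le_antisymm
      · rw [heq]; exact h1 hz.2
      · exact h1 hz.1
    have hco : Q.coeff m = P.coeff m := by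
      rw [hQ, Polynomial.finsetSum_coeff, Finset.sum_eq_single m]
      · simp
      · intro b _ hbm
        rw [Polynomial.coeff_C_mul_X_pow, if_neg (Ne.symm hbm)]
      · intro hcon
        exact absurd (mem_range.mpr (Nat.lt_succ_self m)) hcon
    rw [hconst, Polynomial.coeff_C_of_ne_zero hm.pos.ne'] at hco
    have h0 : P.leadingCoeff = 0 := by
      rw [Polynomial.leadingCoeff, hP]; exact hco.symm
    have h2 := Polynomial.leadingCoeff_eq_zero.mp h0
    rw [h2, Polynomial.natDegree_zero] at hP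
    exact absurd hP hm.pos.ne
  intro x y hxy
  by_contra hne
  rcases lt_or_gt_of_ne hne with h | h
  · exact key x y h hxy
  · exact key y x h hxy.symm

/-! ### The semigroup -/

/-- `Osc σ d f`: the tuple of forms `f = (f_0, …, f_N)` of degree `d` belongs to the compositional
semigroup generated by
* the bidiagonal monotone layers `f_0 = X_0^m`, `f_i = X_0^m (p_i(X_i/X_0) + q_i(X_{i+1}/X_0))`
  (the second term is absent for `i = N`), and the same with `X_{i-1}` in place of `X_{i+1}`,
  where `m` is odd, `p_i` has degree `m`, `q_i` has degree at most `m`, and `p_i`, `q_i` are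
  nondecreasing functions on `ℝ` in the real embedding `σ`;
* the negation `(X_0, -X_1, …, -X_N)` and the reversal `(X_0, X_N, …, X_1)`. -/
inductive Osc (σ : K →+* ℝ) : ℕ → (Fin (N + 1) → MvPolynomial (Fin (N + 1)) K) → Prop
  | up (m : ℕ) (hm : Odd m) (p q : Fin N → Polynomial K) (hp : ∀ i, (p i).natDegree = m)
      (hpm : ∀ i, Monotone fun t : ℝ => ((p i).map σ).eval t) (hq : ∀ i, (q i).natDegree ≤ m)
      (hqm : ∀ i, Monotone fun t : ℝ => ((q i).map σ).eval t) :
      Osc σ m (Fin.cons (X 0 ^ m) fun i : Fin N => hz m (p i) i.succ +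
        (if h : (i : ℕ) + 1 < N then hz m (q i) (Fin.succ ⟨(i : ℕ) + 1, h⟩) else 0))
  | down (m : ℕ) (hm : Odd m) (p q : Fin N → Polynomial K) (hp : ∀ i, (p i).natDegree = m)
      (hpm : ∀ i, Monotone fun t : ℝ => ((p i).map σ).eval t) (hq : ∀ i, (q i).natDegree ≤ m)
      (hqm : ∀ i, Monotone fun t : ℝ => ((q i).map σ).eval t) :
      Osc σ m (Fin.cons (X 0 ^ m) fun i : Fin N => hz m (p i) i.succ +
        (if 0 < (i : ℕ) then hz m (q i) (Fin.succ ⟨(i : ℕ) - 1, by omega⟩) else 0))
  | neg : Osc σ 1 (Fin.cons (X 0) fun i : Fin N => -X i.succ)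
  | rev : Osc σ 1 (Fin.cons (X 0) fun i : Fin N => X i.rev.succ)
  | comp (d e : ℕ) (f g : Fin (N + 1) → MvPolynomial (Fin (N + 1)) K) (hf : Osc σ d f)
      (hg : Osc σ e g) : Osc σ (e * d) (fun i => bind₁ g (f i))

/-- real values of a tuple of forms -/
noncomputable def ev {n : ℕ} (σ : K →+* ℝ) (f : Fin n → MvPolynomial (Fin n) K)
    (v : Fin n → ℝ) : Fin n → ℝ := fun i => eval₂ σ v (f i)

lemma ev_comp {n : ℕ} (σ : K →+* ℝ) (f g : Fin n → MvPolynomial (Fin n) K) (v : Fin n → ℝ) :
    ev σ (fun i => bind₁ g (f i)) v = ev σ f (ev σ g v) := by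
  funext i
  have := eval₂Hom_bind₁ σ v g (f i)
  exact this

/-- the slice map -/
noncomputable def sl (σ : K →+* ℝ) (f : Fin (N + 1) → MvPolynomial (Fin (N + 1)) K) (t : ℝ)
    (x : Fin N → ℝ) : Fin N → ℝ := fun i => ev σ f (Fin.cons t x) i.succ

/-- the properties shared by all members of the semigroup -/
structure Good (σ : K →+* ℝ) (d : ℕ) (f : Fin (N + 1) → MvPolynomial (Fin (N + 1)) K) : Prop where
  odd : Odd d
  hom : ∀ i, (f i).IsHomogeneous d
  zero : ∀ v : Fin (N + 1) → ℝ, ev σ f v 0 = v 0 ^ d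
  vd : ∃ χ : ℕ → ℝ, (∀ k, χ k * χ k = 1) ∧ ∀ t, VD χ (sl σ f t)
  inj : ∀ t, Function.Injective (sl σ f t)
  ideal : Ideal.span (Set.range (X : Fin (N + 1) → MvPolynomial (Fin (N + 1)) K)) ^
    (d ^ (2 * N + 4)) ≤ Ideal.span (Set.range f)

lemma ev_cons {σ : K →+* ℝ} {d : ℕ} {f : Fin (N + 1) → MvPolynomial (Fin (N + 1)) K}
    (h0 : ∀ v : Fin (N + 1) → ℝ, ev σ f v 0 = v 0 ^ d) (t : ℝ) (x : Fin N → ℝ) :
    ev σ f (Fin.cons t x) = Fin.cons (t ^ d) (sl σ f t x) := by
  funext i
  induction i using Fin.cases with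
  | zero => rw [h0]; rfl
  | succ i => rfl

theorem Good.comp {σ : K →+* ℝ} {d e : ℕ} {f g : Fin (N + 1) → MvPolynomial (Fin (N + 1)) K}
    (hf : Good σ d f) (hg : Good σ e g) : Good σ (e * d) (fun i => bind₁ g (f i)) := by
  have hsl : ∀ t, sl σ (fun i => bind₁ g (f i)) t = sl σ f (t ^ e) ∘ sl σ g t := by
    intro t
    funext x i
    show ev σ (fun i => bind₁ g (f i)) (Fin.cons t x) i.succ = _
    rw [ev_comp, ev_cons hg.zero]
    rfl
  refine ⟨hg.odd.mul hf.odd, ?_, ?_, ?_, ?_, ?_⟩
  · intro i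
    exact (hf.hom i).aeval g hg.hom
  · intro v
    rw [ev_comp, hf.zero, hg.zero, pow_mul]
  · obtain ⟨χ, hχ, h1⟩ := hf.vd
    obtain ⟨χ', hχ', h2⟩ := hg.vd
    refine ⟨fun k => χ' k * χ k, fun k => ?_, fun t => ?_⟩
    · have := hχ k; have := hχ' k
      calc χ' k * χ k * (χ' k * χ k) = (χ' k * χ' k) * (χ k * χ k) := by ring
        _ = 1 := by rw [hχ, hχ', one_mul]
    · rw [hsl]
      exact (h1 _).comp (h2 _)
  · intro t
    rw [hsl]
    exact (hf.inj _).comp (hg.inj _)
  · set 𝔪 := Ideal.span (Set.range (X : Fin (N + 1) → MvPolynomial (Fin (N + 1)) K)) with h𝔪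
    have h1 : Ideal.map (bind₁ g : MvPolynomial (Fin (N + 1)) K →ₐ[K] _) 𝔪
        = Ideal.span (Set.range g) := by
      rw [h𝔪, Ideal.map_span]
      congr 1
      ext p
      simp
    have h2 : Ideal.map (bind₁ g : MvPolynomial (Fin (N + 1)) K →ₐ[K] _)
        (Ideal.span (Set.range f)) = Ideal.span (Set.range fun i => bind₁ g (f i)) := by
      rw [Ideal.map_span]
      congr 1
      ext p
      simp
    have h3 := Ideal.map_mono (f := (bind₁ g : MvPolynomial (Fin (N + 1)) K →ₐ[K] _)) hf.ideal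
    rw [h2, Ideal.map_pow, h1] at h3
    rw [mul_pow, pow_mul]
    exact (Ideal.pow_right_mono hg.ideal _).trans h3

/-! ### Layers -/

lemma pow_le_of_pow_mem {R : Type*} [CommRing R] {ι : Type*} (x : ι → R) (I : Ideal R) (M : ℕ)
    (h : ∀ i, x i ^ M ∈ I) (A : Finset ι) :
    Ideal.span (x '' (A : Set ι)) ^ (A.card * M + 1) ≤ I := by
  classical
  induction A using Finset.induction_on with
  | empty => simp
  | insert a A ha ih =>
    rw [Finset.coe_insert, Set.image_insert_eq, Ideal.span_insert, Finset.card_insert_of_notMem ha]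
    have h1 : (A.card + 1) * M + 1 = M + (A.card * M + 1) := by ring
    rw [h1]
    refine Ideal.sup_pow_add_le_pow_sup_pow.trans (sup_le ?_ ih)
    rw [Ideal.span_singleton_pow, Ideal.span_singleton_le_iff_mem]
    exact h a

/-- a tuple whose ideal contains all `X_i^m` modulo `X_0` and `X_0^m` -/
lemma ideal_of_layer {m : ℕ} (hm : Odd m) (I : Ideal (MvPolynomial (Fin (N + 1)) K))
    (h0 : X 0 ^ m ∈ I)
    (h1 : ∀ i : Fin N, (X i.succ : MvPolynomial (Fin (N + 1)) K) ^ m ∈ I ⊔ Ideal.span {X 0}) :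
    Ideal.span (Set.range (X : Fin (N + 1) → MvPolynomial (Fin (N + 1)) K)) ^
      (m ^ (2 * N + 4)) ≤ I := by
  rcases Nat.lt_or_ge m 2 with hm1 | hm1
  · have hm' : m = 1 := by
      have := hm.pos
      omega
    subst hm'
    rw [one_pow, pow_one]
    rw [pow_one] at h0
    have h2 : I ⊔ Ideal.span {X 0} = I := by
      rw [sup_eq_left, Ideal.span_singleton_le_iff_mem]
      exact h0
    rw [Ideal.span_le]
    rintro p ⟨i, rfl⟩
    induction i using Fin.cases with
    | zero => exact h0
    | succ i =>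
      have := h1 i
      rw [pow_one, h2] at this
      exact this
  · have hm3 : 3 ≤ m := by
      rcases hm with ⟨r, hr⟩
      omega
    have hall : ∀ i : Fin (N + 1), (X i : MvPolynomial (Fin (N + 1)) K) ^ (m * (1 + m)) ∈ I := by
      intro i
      induction i using Fin.cases with
      | zero =>
        rw [pow_mul]
        exact Ideal.pow_mem_of_mem _ h0 _ (by omega)
      | succ i =>
        rw [pow_mul]
        have h2 : ((X i.succ : MvPolynomial (Fin (N + 1)) K) ^ m) ^ (1 + m) ∈
            (I ⊔ Ideal.span {X 0}) ^ (1 + m) := Ideal.pow_mem_pow (h1 i) _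
        have h3 := Ideal.sup_pow_add_le_pow_sup_pow h2
        have h4 : I ^ 1 ⊔ Ideal.span {(X 0 : MvPolynomial (Fin (N + 1)) K)} ^ m ≤ I := by
          rw [pow_one, Ideal.span_singleton_pow]
          refine sup_le le_rfl ?_
          rw [Ideal.span_singleton_le_iff_mem]
          exact h0
        exact h4 h3
    have h5 := pow_le_of_pow_mem (X : Fin (N + 1) → MvPolynomial (Fin (N + 1)) K) I
      (m * (1 + m)) hall Finset.univ
    rw [Finset.coe_univ, Set.image_univ, Finset.card_univ, Fintype.card_fin] at h5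
    refine (Ideal.pow_le_pow_right ?_).trans h5
    -- (N+1) * (m(1+m)) + 1 ≤ m ^ (2N+4)
    have h6 : N + 2 ≤ m ^ (2 * N + 1) := by
      calc N + 2 ≤ 2 ^ (2 * N + 1) := by
            have := Nat.lt_two_pow_self (n := 2 * N + 1)
            omega
        _ ≤ m ^ (2 * N + 1) := Nat.pow_le_pow_left (by omega) _
    have h7 : m * (1 + m) ≤ m ^ 3 := by
      have h9 : 1 + m ≤ m * m := by nlinarith
      calc m * (1 + m) ≤ m * (m * m) := Nat.mul_le_mul_left _ h9
        _ = m ^ 3 := by ring
    have h8 : 1 ≤ m ^ 3 := Nat.one_le_pow _ _ (by omega)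
    calc (N + 1) * (m * (1 + m)) + 1 ≤ (N + 1) * m ^ 3 + m ^ 3 :=
          Nat.add_le_add (Nat.mul_le_mul_left _ h7) h8
      _ = (N + 2) * m ^ 3 := by ring
      _ ≤ m ^ (2 * N + 1) * m ^ 3 := Nat.mul_le_mul_right _ h6
      _ = m ^ (2 * N + 4) := by rw [← pow_add]

/-- the common part of the two layers -/
lemma good_of_layer {σ : K →+* ℝ} {m : ℕ} (hm : Odd m) (p : Fin N → Polynomial K)
    (hp : ∀ i, (p i).natDegree = m) (hpm : ∀ i, Monotone fun t : ℝ => ((p i).map σ).eval t)
    (r : Fin N → MvPolynomial (Fin (N + 1)) K) (hr0 : ∀ i, (r i).IsHomogeneous m)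
    (hsh : (∀ (t : ℝ) (x y : Fin N → ℝ) (i : Fin N) (c : ℝ), 0 < c * (eval₂ σ (Fin.cons t x) (r i) - eval₂ σ (Fin.cons t y) (r i)) →
        ∃ j : Fin N, (j : ℕ) = i + 1 ∧ 0 < c * (x j - y j)) ∧
        (∀ (t : ℝ) (x y : Fin N → ℝ) (i : Fin N), (∀ j : Fin N, (j : ℕ) = i + 1 → x j = y j) →
          eval₂ σ (Fin.cons t x) (r i) = eval₂ σ (Fin.cons t y) (r i)) ∧
        (∀ (J : Ideal (MvPolynomial (Fin (N + 1)) K)) (i : Fin N), X 0 ∈ J →
          (∀ j : Fin N, (j : ℕ) = i + 1 → X j.succ ^ m ∈ J) → r i ∈ J) ∨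
      (∀ (t : ℝ) (x y : Fin N → ℝ) (i : Fin N) (c : ℝ), 0 < c * (eval₂ σ (Fin.cons t x) (r i) - eval₂ σ (Fin.cons t y) (r i)) →
        ∃ j : Fin N, (j : ℕ) + 1 = i ∧ 0 < c * (x j - y j)) ∧
        (∀ (t : ℝ) (x y : Fin N → ℝ) (i : Fin N), (∀ j : Fin N, (j : ℕ) + 1 = i → x j = y j) →
          eval₂ σ (Fin.cons t x) (r i) = eval₂ σ (Fin.cons t y) (r i)) ∧
        (∀ (J : Ideal (MvPolynomial (Fin (N + 1)) K)) (i : Fin N), X 0 ∈ J →
          (∀ j : Fin N, (j : ℕ) + 1 = i → X j.succ ^ m ∈ J) → r i ∈ J)) :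
    Good σ m (Fin.cons (X 0 ^ m) fun i : Fin N => hz m (p i) i.succ + r i) := by
  classical
  have hpd : ∀ i, ((p i).map σ).natDegree = m := fun i => by
    rw [Polynomial.natDegree_map, hp]
  have hsl : ∀ (t : ℝ) (x : Fin N → ℝ) (i : Fin N),
      sl σ (Fin.cons (X 0 ^ m) fun i : Fin N => hz m (p i) i.succ + r i) t x i
        = hr ((p i).map σ) m t (x i) + eval₂ σ (Fin.cons t x) (r i) := by
    intro t x i
    unfold sl ev
    rw [Fin.cons_succ, eval₂_add, eval₂_hz, Fin.cons_zero, Fin.cons_succ]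
  refine ⟨hm, ?_, ?_, ⟨fun _ => 1, fun _ => by norm_num, ?_⟩, ?_, ?_⟩
  · intro i
    induction i using Fin.cases with
    | zero =>
      have := (isHomogeneous_X K (0 : Fin (N + 1))).pow m
      rw [one_mul] at this
      exact this
    | succ i =>
      rw [Fin.cons_succ]
      exact (hz_homogeneous _ _ _).add (hr0 i)
  · intro v
    unfold ev
    rw [Fin.cons_zero, eval₂_pow, eval₂_X]
  · intro t x y s k hA
    rw [one_mul]
    have hsplit : ∀ (i : Fin N) (c : ℝ), 0 < c * ((sl σ (Fin.cons (X 0 ^ m) fun i : Fin N =>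
        hz m (p i) i.succ + r i) t x - sl σ (Fin.cons (X 0 ^ m) fun i : Fin N =>
        hz m (p i) i.succ + r i) t y) i) → 0 < c * (x - y) i ∨
        0 < c * (eval₂ σ (Fin.cons t x) (r i) - eval₂ σ (Fin.cons t y) (r i)) := by
      intro i c h
      rw [Pi.sub_apply, hsl, hsl] at h
      by_cases h1 : 0 < c * (hr ((p i).map σ) m t (x i) - hr ((p i).map σ) m t (y i))
      · left
        exact mono_sign (hr_mono hm (hpd i).le (hpm i) t) h1
      · right
        nlinarith
    rcases hsh with ⟨h1, _, _⟩ | ⟨h1, _, _⟩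
    · refine alt_of_up ?_ hA
      intro i c h
      rcases hsplit i c h with h2 | h2
      · exact Or.inl h2
      · exact Or.inr (h1 t x y i c h2)
    · refine alt_of_down ?_ hA
      intro i c h
      rcases hsplit i c h with h2 | h2
      · exact Or.inl h2
      · exact Or.inr (h1 t x y i c h2)
  · intro t x y hxy
    by_contra hne
    have hset : (univ.filter (fun i => x i ≠ y i)).Nonempty := by
      obtain ⟨i, hi⟩ := Function.ne_iff.mp hne
      exact ⟨i, by simpa using hi⟩
    have hstep : ∀ i : Fin N, eval₂ σ (Fin.cons t x) (r i) = eval₂ σ (Fin.cons t y) (r i) →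
        x i = y i := by
      intro i hi
      have h1 := congrFun hxy i
      rw [hsl, hsl, hi] at h1
      exact (hr_strictMono hm (hpd i) (hpm i) t).injective (add_right_cancel h1)
    rcases hsh with ⟨_, h2, _⟩ | ⟨_, h2, _⟩
    · set i := (univ.filter (fun i => x i ≠ y i)).max' hset with hi
      have hmem := (univ.filter (fun i => x i ≠ y i)).max'_mem hset
      rw [← hi, mem_filter] at hmem
      refine hmem.2 (hstep i (h2 t x y i fun j hj => ?_))
      by_contra hcon
      have h3 := (univ.filter (fun i => x i ≠ y i)).le_max' j (by simpa using hcon)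
      rw [← hi, Fin.le_def] at h3
      omega
    · set i := (univ.filter (fun i => x i ≠ y i)).min' hset with hi
      have hmem := (univ.filter (fun i => x i ≠ y i)).min'_mem hset
      rw [← hi, mem_filter] at hmem
      refine hmem.2 (hstep i (h2 t x y i fun j hj => ?_))
      by_contra hcon
      have h3 := (univ.filter (fun i => x i ≠ y i)).min'_le j (by simpa using hcon)
      rw [← hi, Fin.le_def] at h3
      omega
  · set I := Ideal.span (Set.range (Fin.cons (X 0 ^ m) fun i : Fin N =>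
      hz m (p i) i.succ + r i : Fin (N + 1) → MvPolynomial (Fin (N + 1)) K)) with hI
    have hI0 : X 0 ^ m ∈ I := Ideal.subset_span ⟨0, rfl⟩
    have hIi : ∀ i : Fin N, hz m (p i) i.succ + r i ∈ I := fun i =>
      Ideal.subset_span ⟨i.succ, by rw [Fin.cons_succ]⟩
    refine ideal_of_layer hm I hI0 ?_
    set J := I ⊔ Ideal.span {(X 0 : MvPolynomial (Fin (N + 1)) K)} with hJ
    have hJ0 : (X 0 : MvPolynomial (Fin (N + 1)) K) ∈ J :=
      (le_sup_right : Ideal.span {(X 0 : MvPolynomial (Fin (N + 1)) K)} ≤ J)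
        (Ideal.subset_span rfl)
    have hstep : ∀ i : Fin N, r i ∈ J → (X i.succ : MvPolynomial (Fin (N + 1)) K) ^ m ∈ J := by
      intro i hri
      have h1 : hz m (p i) i.succ + r i ∈ J := (le_sup_left : I ≤ J) (hIi i)
      have h2 : hz m (p i) i.succ - C ((p i).coeff m) * X i.succ ^ m ∈ J :=
        (le_sup_right : Ideal.span {(X 0 : MvPolynomial (Fin (N + 1)) K)} ≤ J) (hz_mod _ _ _)
      have h3 : C ((p i).coeff m) * X i.succ ^ m ∈ J := by
        have := J.sub_mem (J.sub_mem h1 hri) h2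
        have e : hz m (p i) i.succ + r i - r i - (hz m (p i) i.succ -
            C ((p i).coeff m) * X i.succ ^ m) = C ((p i).coeff m) * X i.succ ^ m := by ring
        rwa [e] at this
      have hne : (p i).coeff m ≠ 0 := by
        have h4 : (p i).leadingCoeff ≠ 0 := by
          intro h5
          have h6 := Polynomial.leadingCoeff_eq_zero.mp h5
          have h7 := hp i
          rw [h6, Polynomial.natDegree_zero] at h7
          exact absurd h7 hm.pos.ne
        rwa [Polynomial.leadingCoeff, hp] at h4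
      have h5 := J.mul_mem_left (C ((p i).coeff m)⁻¹) h3
      rw [← mul_assoc, ← C_mul, inv_mul_cancel₀ hne, C_1, one_mul] at h5
      exact h5
    intro i0
    by_contra hcon0
    have hset : (univ.filter (fun i : Fin N =>
        (X i.succ : MvPolynomial (Fin (N + 1)) K) ^ m ∉ J)).Nonempty :=
      ⟨i0, by simpa using hcon0⟩
    rcases hsh with ⟨_, _, h2⟩ | ⟨_, _, h2⟩
    · set i := (univ.filter (fun i : Fin N =>
        (X i.succ : MvPolynomial (Fin (N + 1)) K) ^ m ∉ J)).max' hset with hi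
      have hmem := (univ.filter (fun i : Fin N =>
        (X i.succ : MvPolynomial (Fin (N + 1)) K) ^ m ∉ J)).max'_mem hset
      rw [← hi, mem_filter] at hmem
      refine hmem.2 (hstep i (h2 J i hJ0 fun j hj => ?_))
      by_contra hcon
      have h3 := (univ.filter (fun i : Fin N =>
        (X i.succ : MvPolynomial (Fin (N + 1)) K) ^ m ∉ J)).le_max' j (by simpa using hcon)
      rw [← hi, Fin.le_def] at h3
      omega
    · set i := (univ.filter (fun i : Fin N =>
        (X i.succ : MvPolynomial (Fin (N + 1)) K) ^ m ∉ J)).min' hset with hi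
      have hmem := (univ.filter (fun i : Fin N =>
        (X i.succ : MvPolynomial (Fin (N + 1)) K) ^ m ∉ J)).min'_mem hset
      rw [← hi, mem_filter] at hmem
      refine hmem.2 (hstep i (h2 J i hJ0 fun j hj => ?_))
      by_contra hcon
      have h3 := (univ.filter (fun i : Fin N =>
        (X i.succ : MvPolynomial (Fin (N + 1)) K) ^ m ∉ J)).min'_le j (by simpa using hcon)
      rw [← hi, Fin.le_def] at h3
      omega

lemma hz_mem {m : ℕ} (p : Polynomial K) (j : Fin (N + 1))
    (J : Ideal (MvPolynomial (Fin (N + 1)) K)) (h0 : X 0 ∈ J) (hj : X j ^ m ∈ J) :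
    hz m p j ∈ J := by
  have h1 : hz m p j - C (p.coeff m) * X j ^ m ∈ J :=
    ((Ideal.span_singleton_le_iff_mem J).mpr h0) (hz_mod m p j)
  have h2 := J.add_mem h1 (J.mul_mem_left (C (p.coeff m)) hj)
  rwa [sub_add_cancel] at h2

theorem Osc.good {σ : K →+* ℝ} {d : ℕ} {f : Fin (N + 1) → MvPolynomial (Fin (N + 1)) K}
    (h : Osc σ d f) : Good σ d f := by
  induction h with
  | up m hm p q hp hpm hq hqm =>
    have hqd : ∀ i, ((q i).map σ).natDegree ≤ m := fun i => by
      rw [Polynomial.natDegree_map]; exact hq i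
    refine good_of_layer hm p hp hpm _ ?_ (Or.inl ⟨?_, ?_, ?_⟩)
    · intro i
      split_ifs with hi
      · exact hz_homogeneous _ _ _
      · exact isHomogeneous_zero _ _ _
    · intro t x y i c hc
      by_cases hi : (i : ℕ) + 1 < N
      · rw [dif_pos hi, eval₂_hz, eval₂_hz, Fin.cons_zero, Fin.cons_succ, Fin.cons_zero,
          Fin.cons_succ] at hc
        exact ⟨⟨(i : ℕ) + 1, hi⟩, rfl, mono_sign (hr_mono hm (hqd i) (hqm i) t) hc⟩
      · rw [dif_neg hi, eval₂_zero, eval₂_zero, sub_self, mul_zero] at hc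
        exact absurd hc (lt_irrefl _)
    · intro t x y i hj
      by_cases hi : (i : ℕ) + 1 < N
      · rw [dif_pos hi, eval₂_hz, eval₂_hz, Fin.cons_zero, Fin.cons_succ, Fin.cons_zero,
          Fin.cons_succ, hj ⟨(i : ℕ) + 1, hi⟩ rfl]
      · rw [dif_neg hi, eval₂_zero, eval₂_zero]
    · intro J i h0 hj
      by_cases hi : (i : ℕ) + 1 < N
      · rw [dif_pos hi]
        exact hz_mem _ _ J h0 (hj ⟨(i : ℕ) + 1, hi⟩ rfl)
      · rw [dif_neg hi]
        exact J.zero_mem
  | down m hm p q hp hpm hq hqm =>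
    have hqd : ∀ i, ((q i).map σ).natDegree ≤ m := fun i => by
      rw [Polynomial.natDegree_map]; exact hq i
    refine good_of_layer hm p hp hpm _ ?_ (Or.inr ⟨?_, ?_, ?_⟩)
    · intro i
      split_ifs with hi
      · exact hz_homogeneous _ _ _
      · exact isHomogeneous_zero _ _ _
    · intro t x y i c hc
      by_cases hi : 0 < (i : ℕ)
      · rw [if_pos hi, eval₂_hz, eval₂_hz, Fin.cons_zero, Fin.cons_succ, Fin.cons_zero,
          Fin.cons_succ] at hc
        exact ⟨⟨(i : ℕ) - 1, by omega⟩, by simp only; omega,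
          mono_sign (hr_mono hm (hqd i) (hqm i) t) hc⟩
      · rw [if_neg hi, eval₂_zero, eval₂_zero, sub_self, mul_zero] at hc
        exact absurd hc (lt_irrefl _)
    · intro t x y i hj
      by_cases hi : 0 < (i : ℕ)
      · rw [if_pos hi, eval₂_hz, eval₂_hz, Fin.cons_zero, Fin.cons_succ, Fin.cons_zero,
          Fin.cons_succ, hj ⟨(i : ℕ) - 1, by omega⟩ (by simp only; omega)]
      · rw [if_neg hi, eval₂_zero, eval₂_zero]
    · intro J i h0 hj
      by_cases hi : 0 < (i : ℕ)
      · rw [if_pos hi]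
        exact hz_mem _ _ J h0 (hj ⟨(i : ℕ) - 1, by omega⟩ (by simp only; omega))
      · rw [if_neg hi]
        exact J.zero_mem
  | neg =>
    have hsl : ∀ t, sl σ (Fin.cons (X 0) fun i : Fin N => -X i.succ) t = fun x => -x := by
      intro t
      funext x i
      unfold sl ev
      rw [Fin.cons_succ, eval₂_neg, eval₂_X, Fin.cons_succ]
      rfl
    refine ⟨odd_one, ?_, ?_, ⟨fun _ => -1, fun _ => by norm_num, ?_⟩, ?_, ?_⟩
    · intro i
      induction i using Fin.cases with
      | zero => exact isHomogeneous_X K 0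
      | succ i => rw [Fin.cons_succ]; exact (isHomogeneous_X K _).neg
    · intro v
      unfold ev
      rw [Fin.cons_zero, eval₂_X, pow_one]
    · intro t
      rw [hsl]
      exact vd_neg
    · intro t
      rw [hsl]
      exact neg_injective
    · rw [one_pow, pow_one, Ideal.span_le]
      rintro p ⟨i, rfl⟩
      induction i using Fin.cases with
      | zero => exact Ideal.subset_span ⟨0, rfl⟩
      | succ i =>
        have h1 : -X i.succ ∈ Ideal.span (Set.range (Fin.cons (X 0) fun i : Fin N =>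
            -X i.succ : Fin (N + 1) → MvPolynomial (Fin (N + 1)) K)) :=
          Ideal.subset_span ⟨i.succ, by rw [Fin.cons_succ]⟩
        have h2 := Ideal.neg_mem_iff _ |>.mpr h1
        rw [neg_neg] at h2
        exact h2
  | rev =>
    have hsl : ∀ t, sl σ (Fin.cons (X 0) fun i : Fin N => X i.rev.succ) t
        = fun x i => x i.rev := by
      intro t
      funext x i
      unfold sl ev
      rw [Fin.cons_succ, eval₂_X, Fin.cons_succ]
    refine ⟨odd_one, ?_, ?_, ⟨fun k => (-1) ^ (k + 1), fun k => ?_, ?_⟩, ?_, ?_⟩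
    · intro i
      induction i using Fin.cases with
      | zero => exact isHomogeneous_X K 0
      | succ i => rw [Fin.cons_succ]; exact isHomogeneous_X K _
    · intro v
      unfold ev
      rw [Fin.cons_zero, eval₂_X, pow_one]
    · rw [← mul_pow]; norm_num
    · intro t
      rw [hsl]
      exact vd_rev
    · intro t x y hxy
      rw [hsl] at hxy
      funext i
      have := congrFun hxy i.rev
      simpa using this
    · rw [one_pow, pow_one, Ideal.span_le]
      rintro p ⟨i, rfl⟩
      induction i using Fin.cases with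
      | zero => exact Ideal.subset_span ⟨0, rfl⟩
      | succ i =>
        exact Ideal.subset_span ⟨i.rev.succ, by rw [Fin.cons_succ, Fin.rev_rev]⟩
  | comp d e f g _ _ ihf ihg => exact ihf.comp ihg

end Pool.Agent.H927R2.Osc
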