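import Mathlib
import Pool.Agent.H927R2.Osc.Forms
import Pool.Agent.H927R2.Osc.Count

/-!
# Preperiodic points of oscillatory morphisms
-/

set_option autoImplicit false

open Finset MvPolynomial

namespace Pool.Agent.H927R2.Osc

variable {K : Type} [Field K] {N d : ℕ} {σ : K →+* ℝ}
  {f : Fin (N + 1) → MvPolynomial (Fin (N + 1)) K}

lemma eval₂_smul {n : ℕ} {p : MvPolynomial (Fin n) K} (hp : p.IsHomogeneous d) (c : ℝ)
    (v : Fin n → ℝ) : eval₂ σ (c • v) p = c ^ d * eval₂ σ v p := by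
  rw [eval₂_eq', eval₂_eq', Finset.mul_sum]
  refine Finset.sum_congr rfl fun α hα => ?_
  have h1 : α.degree = d := by
    have := hp (mem_support_iff.mp hα)
    rwa [Pi.one_def, ← Finsupp.degree_eq_weight_one] at this
  have h2 : ∏ i, (c • v) i ^ α i = c ^ d * ∏ i, v i ^ α i := by
    rw [← h1, Finsupp.degree_eq_sum, ← Finset.prod_pow_eq_pow_sum, ← Finset.prod_mul_distrib]
    refine Finset.prod_congr rfl fun i _ => ?_
    rw [Pi.smul_apply, smul_eq_mul, mul_pow]
  rw [h2]; ring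

lemma ev_smul (hf : Good σ d f) (c : ℝ) (v : Fin (N + 1) → ℝ) :
    ev σ f (c • v) = c ^ d • ev σ f v := by
  funext i
  exact eval₂_smul (hf.hom i) c v

lemma ev_iter_smul (hf : Good σ d f) (c : ℝ) (v : Fin (N + 1) → ℝ) (k : ℕ) :
    (ev σ f)^[k] (c • v) = c ^ (d ^ k) • (ev σ f)^[k] v := by
  induction k with
  | zero => simp
  | succ k ih =>
    rw [Function.iterate_succ_apply', ih, ev_smul hf, Function.iterate_succ_apply', ← pow_mul,
      pow_succ]

lemma ev_iter_cons (hf : Good σ d f) {t : ℝ} (ht : t ^ d = t) (x : Fin N → ℝ) (k : ℕ) :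
    (ev σ f)^[k] (Fin.cons t x) = Fin.cons t ((sl σ f t)^[k] x) := by
  induction k with
  | zero => simp
  | succ k ih =>
    rw [Function.iterate_succ_apply', ih, ev_cons hf.zero, ht, Function.iterate_succ_apply']

lemma odd_root_exists {e : ℕ} (he : Odd e) (c : ℝ) : ∃ r : ℝ, r ^ e = c := by
  rcases le_total 0 c with hc | hc
  · exact ⟨c ^ ((e : ℝ)⁻¹), Real.rpow_inv_natCast_pow hc he.pos.ne'⟩
  · refine ⟨-((-c) ^ ((e : ℝ)⁻¹)), ?_⟩
    rw [he.neg_pow, Real.rpow_inv_natCast_pow (by linarith) he.pos.ne', neg_neg]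

/-- periodic points of a slice map are fixed by its square -/
lemma slice_fixed (hf : Good σ d f) (t : ℝ) (x : Fin N → ℝ) (l : ℕ) (hl : 1 ≤ l)
    (h : (sl σ f t ∘ sl σ f t)^[l] x = x) : sl σ f t (sl σ f t x) = x := by
  obtain ⟨χ, hχ, hvd⟩ := hf.vd
  have h1 : VD (fun _ => 1) (sl σ f t ∘ sl σ f t) := by
    have := (hvd t).comp (hvd t)
    simp only [hχ] at this
    exact this
  exact fixed_of_periodic h1 x l hl h

lemma iterate_two_mul {α : Type*} (T : α → α) (l : ℕ) : (T ∘ T)^[l] = T^[2 * l] := by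
  have : T ∘ T = T^[2] := rfl
  rw [this, ← Function.iterate_mul]

/-- **Normalization.**  A real vector that is preperiodic up to scalars has a multiple fixed by the
square of the map. -/
theorem real_normal (hf : Good σ d f) (hd : 2 ≤ d) (v : Fin (N + 1) → ℝ) (hv : v ≠ 0) {m n : ℕ}
    (hmn : m < n) {c : ℝ} (hc : c ≠ 0) (h : (ev σ f)^[n] v = c • (ev σ f)^[m] v) :
    ∃ μ : ℝ, μ ≠ 0 ∧ ev σ f (ev σ f (μ • v)) = μ • v := by
  by_cases h0 : v 0 = 0
  · -- the hyperplane at infinity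
    set x : Fin N → ℝ := Fin.tail v with hx
    have hvx : v = Fin.cons 0 x := by
      rw [← h0, hx, Fin.cons_self_tail]
    have h0d : (0 : ℝ) ^ d = 0 := zero_pow (by omega)
    set T := sl σ f 0 with hT
    have hx0 : x ≠ 0 := by
      intro hcon
      apply hv
      rw [hvx, hcon]
      funext i
      induction i using Fin.cases with
      | zero => rfl
      | succ i => rfl
    have hconsmul : ∀ (a : ℝ) (y : Fin N → ℝ), (Fin.cons 0 (a • y) : Fin (N + 1) → ℝ)
        = a • (Fin.cons 0 y : Fin (N + 1) → ℝ) := by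
      intro a y
      funext i
      induction i using Fin.cases with
      | zero => simp
      | succ i => simp
    have hTs : ∀ (k : ℕ) (a : ℝ) (y : Fin N → ℝ), T^[k] (a • y) = a ^ (d ^ k) • T^[k] y := by
      intro k a y
      have h1 := ev_iter_cons hf h0d (a • y) k
      rw [hconsmul, ev_iter_smul hf, ev_iter_cons hf h0d y k, ← hconsmul] at h1
      exact (Fin.cons_injective2 h1).2.symm
    have hper : T^[n] x = c • T^[m] x := by
      rw [hvx, ev_iter_cons hf h0d, ev_iter_cons hf h0d, ← hconsmul] at h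
      exact (Fin.cons_injective2 h).2
    have hinj : Function.Injective T := hf.inj 0
    obtain ⟨r, hr⟩ := odd_root_exists (hf.odd.pow (n := m)) c
    have hr0 : r ≠ 0 := by
      rintro rfl
      apply hc
      rw [← hr, zero_pow (pow_pos (by omega) m).ne']
    set l := n - m with hl
    have hl1 : 1 ≤ l := by omega
    have hTl : T^[l] x = r • x := by
      apply hinj.iterate m
      rw [← Function.iterate_add_apply, hTs, hr]
      have : m + l = n := by omega
      rw [this, hper]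
    -- rescale
    have hdl : 2 ≤ d ^ l := by
      calc 2 ≤ d := hd
        _ = d ^ 1 := (pow_one d).symm
        _ ≤ d ^ l := Nat.pow_le_pow_right (by omega) hl1
    have habs : 0 < |r|⁻¹ := inv_pos.mpr (abs_pos.mpr hr0)
    set μ : ℝ := (|r|⁻¹) ^ (((d ^ l - 1 : ℕ) : ℝ)⁻¹) with hμ
    have hμpos : 0 < μ := Real.rpow_pos_of_pos habs _
    have hμpow : μ ^ (d ^ l - 1) = |r|⁻¹ :=
      Real.rpow_inv_natCast_pow habs.le (by omega)
    set ε : ℝ := |r|⁻¹ * r with hε
    have hε2 : ε ^ 2 = 1 := by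
      rw [hε, mul_pow, inv_pow, sq_abs, inv_mul_cancel₀ (pow_ne_zero 2 hr0)]
    have hTw : T^[l] (μ • x) = ε • (μ • x) := by
      rw [hTs, hTl]
      have e1 : d ^ l = (d ^ l - 1) + 1 := by omega
      rw [e1, pow_succ, hμpow, smul_smul, smul_smul, hε]
      congr 1
      ring
    have hTw2 : (T ∘ T)^[l] (μ • x) = μ • x := by
      rw [iterate_two_mul, two_mul, Function.iterate_add_apply, hTw, hTs, hTw, smul_smul]
      have hodd : Odd (d ^ l) := hf.odd.pow
      obtain ⟨b, hb⟩ := hodd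
      have e2 : ε ^ (d ^ l) * ε = 1 := by
        rw [hb, ← pow_succ, show 2 * b + 1 + 1 = 2 * (b + 1) by ring, pow_mul, hε2, one_pow]
      rw [e2, one_smul]
    have hfix := slice_fixed hf 0 (μ • x) l hl1 hTw2
    refine ⟨μ, hμpos.ne', ?_⟩
    have e3 : μ • v = Fin.cons 0 (μ • x) := by rw [hconsmul, ← hvx]
    rw [e3]
    have e4 := ev_iter_cons hf h0d (μ • x) 2
    have e5 : (ev σ f)^[2] (Fin.cons 0 (μ • x)) = ev σ f (ev σ f (Fin.cons 0 (μ • x))) := rfl
    have e6 : (sl σ f 0)^[2] (μ • x) = sl σ f 0 (sl σ f 0 (μ • x)) := rfl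
    rw [e5, e6, hfix] at e4
    exact e4
  · -- the affine part
    set μ : ℝ := (v 0)⁻¹ with hμ
    have hμ0 : μ ≠ 0 := inv_ne_zero h0
    refine ⟨μ, hμ0, ?_⟩
    set x : Fin N → ℝ := Fin.tail (μ • v) with hx
    have hu0 : (μ • v) 0 = 1 := by
      rw [Pi.smul_apply, smul_eq_mul, hμ, inv_mul_cancel₀ h0]
    have hu : μ • v = Fin.cons 1 x := by
      rw [← hu0, hx, Fin.cons_self_tail]
    have h1d : (1 : ℝ) ^ d = 1 := one_pow d
    have hpow : ∀ k, (ev σ f)^[k] v = (μ ^ (d ^ k))⁻¹ • (Fin.cons 1 ((sl σ f 1)^[k] x) :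
        Fin (N + 1) → ℝ) := by
      intro k
      rw [← ev_iter_cons hf h1d, ← hu, ev_iter_smul hf, smul_smul,
        inv_mul_cancel₀ (pow_ne_zero _ hμ0), one_smul]
    rw [hpow, hpow, smul_smul] at h
    have hz := congrFun h 0
    rw [Pi.smul_apply, Pi.smul_apply, Fin.cons_zero, Fin.cons_zero] at hz
    have hscal : (μ ^ (d ^ n))⁻¹ = c * (μ ^ (d ^ m))⁻¹ := by simpa using hz
    rw [hscal] at h
    have hne : c * (μ ^ (d ^ m))⁻¹ ≠ 0 := mul_ne_zero hc (inv_ne_zero (pow_ne_zero _ hμ0))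
    have h2 := smul_right_injective _ hne h
    have h3 : (sl σ f 1)^[n] x = (sl σ f 1)^[m] x := (Fin.cons_injective2 h2).2
    have hinj : Function.Injective (sl σ f 1) := hf.inj 1
    set l := n - m with hl
    have hl1 : 1 ≤ l := by omega
    have h4 : (sl σ f 1)^[l] x = x := by
      apply hinj.iterate m
      rw [← Function.iterate_add_apply]
      have : m + l = n := by omega
      rw [this, h3]
    have h5 : (sl σ f 1 ∘ sl σ f 1)^[l] x = x := by
      rw [iterate_two_mul, two_mul, Function.iterate_add_apply, h4, h4]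
    have hfix := slice_fixed hf 1 x l hl1 h5
    rw [hu]
    have e4 := ev_iter_cons hf h1d x 2
    have e5 : (ev σ f)^[2] (Fin.cons 1 x) = ev σ f (ev σ f (Fin.cons 1 x)) := rfl
    have e6 : (sl σ f 1)^[2] x = sl σ f 1 (sl σ f 1 x) := rfl
    rw [e5, e6, hfix] at e4
    exact e4

/-! ### Transfer to `K` -/

/-- the map on vectors over `K` -/
noncomputable def vmap (f : Fin (N + 1) → MvPolynomial (Fin (N + 1)) K) (v : Fin (N + 1) → K) :
    Fin (N + 1) → K := fun i => eval v (f i)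

lemma ev_toR (v : Fin (N + 1) → K) : ev σ f (fun i => σ (v i)) = fun i => σ (vmap f v i) := by
  funext i
  unfold ev vmap
  have h1 := eval₂_comp_left σ (RingHom.id K) v (f i)
  rw [RingHom.comp_id] at h1
  exact h1.symm

lemma ev_iter_toR (v : Fin (N + 1) → K) (k : ℕ) :
    (ev σ f)^[k] (fun i => σ (v i)) = fun i => σ ((vmap f)^[k] v i) := by
  induction k with
  | zero => rfl
  | succ k ih => rw [Function.iterate_succ_apply', ih, ev_toR, Function.iterate_succ_apply']

lemma toR_ne {v : Fin (N + 1) → K} (hv : v ≠ 0) : (fun i => σ (v i)) ≠ 0 := by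
  intro h
  apply hv
  funext i
  have := congrFun h i
  exact (map_eq_zero σ).mp this

/-- preperiodic vectors over `K` -/
theorem exists_normal (hf : Good σ d f) (hd : 2 ≤ d) (x : Fin (N + 1) → K) (hx : x ≠ 0)
    (h : ∃ m n : ℕ, m < n ∧ ∃ c : K, c ≠ 0 ∧ (vmap f)^[n] x = c • (vmap f)^[m] x) :
    ∃ μ : ℝ, μ ≠ 0 ∧
      ev σ f (ev σ f (μ • (fun i => σ (x i)))) = μ • (fun i => σ (x i)) := by
  obtain ⟨m, n, hmn, c, hc, h⟩ := h
  refine real_normal hf hd _ (toR_ne hx) hmn (c := σ c) ((map_ne_zero σ).mpr hc) ?_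
  rw [ev_iter_toR, ev_iter_toR, h]
  funext i
  simp

theorem sq_fixed (hf : Good σ d f) (hd : 2 ≤ d) (x : Fin (N + 1) → K) (hx : x ≠ 0)
    (h : ∃ m n : ℕ, m < n ∧ ∃ c : K, c ≠ 0 ∧ (vmap f)^[n] x = c • (vmap f)^[m] x) :
    ∃ c : K, c ≠ 0 ∧ vmap f (vmap f x) = c • x := by
  obtain ⟨μ, hμ, h1⟩ := exists_normal hf hd x hx h
  have h2 := ev_iter_smul hf μ (fun i => σ (x i)) 2
  have e1 : (ev σ f)^[2] (μ • fun i => σ (x i)) = ev σ f (ev σ f (μ • fun i => σ (x i))) := rfl
  rw [e1, h1, ev_iter_toR] at h2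
  -- `μ σ(x_i) = μ^(d²) σ((f f x)_i)`
  have h3 : ∀ i, μ * σ (x i) = μ ^ (d ^ 2) * σ (vmap f (vmap f x) i) := by
    intro i
    have := congrFun h2 i
    simpa using this
  obtain ⟨i0, hi0⟩ := Function.ne_iff.mp hx
  have hi0' : x i0 ≠ 0 := hi0
  have hσ : σ (x i0) ≠ 0 := (map_ne_zero σ).mpr hi0'
  have hpow : μ ^ (d ^ 2) ≠ 0 := pow_ne_zero _ hμ
  refine ⟨vmap f (vmap f x) i0 / x i0, ?_, ?_⟩
  · rw [div_ne_zero_iff]
    refine ⟨?_, hi0'⟩
    intro hcon
    have := h3 i0
    rw [hcon, map_zero, mul_zero] at this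
    exact (mul_ne_zero hμ hσ) this
  · funext i
    apply σ.injective
    rw [Pi.smul_apply, smul_eq_mul, map_mul, map_div₀]
    have ha := h3 i
    have hb := h3 i0
    have hc : σ (vmap f (vmap f x) i) = μ * σ (x i) / μ ^ (d ^ 2) := by
      rw [ha]; field_simp
    have hd' : σ (vmap f (vmap f x) i0) = μ * σ (x i0) / μ ^ (d ^ 2) := by
      rw [hb]; field_simp
    rw [hc, hd']
    field_simp

theorem card_le (hf : Good σ d f) (hd : 2 ≤ d) (S : Finset (Fin (N + 1) → K))
    (hS0 : ∀ x ∈ S, x ≠ 0) (hSp : ∀ x ∈ S, ∀ y ∈ S, ∀ c : K, x = c • y → x = y)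
    (hS : ∀ x ∈ S, ∃ m n : ℕ, m < n ∧ ∃ c : K, c ≠ 0 ∧ (vmap f)^[n] x = c • (vmap f)^[m] x) :
    S.card ≤ ((d * d) ^ (2 * N + 4)) ^ (N + 1) := by
  classical
  choose! μ hμ hfix using fun x (hx : x ∈ S) => exists_normal hf hd x (hS0 x hx) (hS x hx)
  set w : (Fin (N + 1) → K) → (Fin (N + 1) → ℝ) := fun x => μ x • (fun i => σ (x i)) with hw
  have hinj : Set.InjOn w (S : Set (Fin (N + 1) → K)) := by
    intro x hx y hy hxy
    have hxy' : ∀ i, μ x * σ (x i) = μ y * σ (y i) := by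
      intro i
      have := congrFun hxy i
      simpa [hw] using this
    obtain ⟨i0, hi0⟩ := Function.ne_iff.mp (hS0 y hy)
    have hy0 : y i0 ≠ 0 := hi0
    have hσy : σ (y i0) ≠ 0 := (map_ne_zero σ).mpr hy0
    have hμx := hμ x hx
    have hμy := hμ y hy
    refine hSp x hx y hy (x i0 / y i0) ?_
    funext i
    apply σ.injective
    rw [Pi.smul_apply, smul_eq_mul, map_mul, map_div₀]
    have h1 : σ (x i) = μ y * σ (y i) / μ x := by rw [← hxy' i]; field_simp
    have h2 : σ (x i0) = μ y * σ (y i0) / μ x := by rw [← hxy' i0]; field_simp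
    rw [h1, h2]
    field_simp
  rw [← Finset.card_image_of_injOn hinj]
  have hff := hf.comp hf
  set g : Fin (N + 1) → MvPolynomial (Fin (N + 1)) ℝ :=
    fun i => MvPolynomial.map σ (bind₁ f (f i)) with hg
  refine card_fixed_le (g := g) (e := d * d) (D := (d * d) ^ (2 * N + 4)) (by nlinarith)
    (fun i => (hff.hom i).map σ) ?_ _ ?_
  · have h1 := Ideal.map_mono (f := (MvPolynomial.map σ : MvPolynomial (Fin (N + 1)) K →+* _))
      hff.ideal
    rw [Ideal.map_pow, Ideal.map_span, Ideal.map_span] at h1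
    have e1 : (MvPolynomial.map σ : MvPolynomial (Fin (N + 1)) K →+* _) '' Set.range X
        = Set.range (X : Fin (N + 1) → MvPolynomial (Fin (N + 1)) ℝ) := by
      rw [← Set.range_comp]
      congr 1
      funext i
      simp
    have e2 : (MvPolynomial.map σ : MvPolynomial (Fin (N + 1)) K →+* _) ''
        Set.range (fun i => bind₁ f (f i)) = Set.range g := by
      rw [← Set.range_comp]
      rfl
    rw [e1, e2] at h1
    exact h1
  · intro v hv i
    obtain ⟨x, hx, rfl⟩ := Finset.mem_image.mp hv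
    have h1 := congrFun (hfix x hx) i
    rw [← ev_comp] at h1
    rw [hg]
    simp only
    rw [eval_map]
    exact h1

lemma no_common_zero (hf : Good σ d f) {L : Type} [Field L] [Algebra K L]
    (x : Fin (N + 1) → L) (hx : ∀ i, aeval x (f i) = 0) : x = 0 := by
  funext i
  have h1 : (X i : MvPolynomial (Fin (N + 1)) K) ^ (d ^ (2 * N + 4)) ∈
      Ideal.span (Set.range f) :=
    hf.ideal (Ideal.pow_mem_pow (Ideal.subset_span (Set.mem_range_self i)) _)
  obtain ⟨c, hc⟩ := Ideal.mem_span_range_iff_exists_fun.mp h1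
  have h2 := congrArg (aeval x) hc
  rw [map_sum, map_pow, aeval_X] at h2
  have h3 : ∑ j, aeval x (c j * f j) = 0 := by
    refine Finset.sum_eq_zero fun j _ => ?_
    rw [map_mul, hx, mul_zero]
  rw [h3] at h2
  exact pow_eq_zero_iff (pow_pos hf.odd.pos _).ne' |>.mp h2.symm

end Pool.Agent.H927R2.Osc
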